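import Pool.Agent.Helper64.NC.Ck.Sound

/-! NC: a checked certificate (second checker) excludes maps with exactly three Hamilton
circuits. -/

set_option linter.unusedSectionVars false

namespace Pool.H64.NC

open Function Code

theorem psum_congr (P Q : ℕ → Bool) (n : ℕ) (h : ∀ j < n, P j = Q j) : psum P n = psum Q n := by
  induction n with
  | zero => rfl
  | succ n ih =>
    unfold psum
    rw [ih (fun j hj => h j (Nat.lt_succ_of_lt hj)), h n (Nat.lt_succ_self n)]

theorem psum_inj {P Q : ℕ → Bool} {n : ℕ} (h : psum P n = psum Q n) (j : ℕ) (hj : j < n) :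
    P j = Q j := by
  have h1 := psum_testBit P n j
  have h2 := psum_testBit Q n j
  rw [h, h2] at h1
  simpa [hj] using h1.symm

section
variable {D : Type*} [Fintype D] [DecidableEq D] {M : CubicMap D} {q : List ℕ} {ι : ℕ → D}
variable {c : Tree} {G : GTree}
variable (hc : Coded M q ι) (hq : Cert2 q c G)
include hc hq

/-- an entry gives a configuration with the listed trace -/
theorem entry_spec {m : ℕ} {x : ℕ × ℕ × List ℕ} (hx : x ∈ G.find m) :
    ∃ C, (hc.patch hq.wok).Inner C ∧ Match hc C x.1 ∧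
    (hc.patch hq.wok).CovI C ∧ pat x.1 (wL q) 0 = m ∧
    (∀ i, (((hc.patch hq.wok).traceI C i : Fin (wL q).length) : ℕ) = dig x.2.1 i ∧
      ((hc.patch hq.wok).m i ∈ C ↔ dig x.2.1 i = i)) ∧
    ∀ e, bt x.1 e = true → ∃ c ∈ codes q, e = c / 2 := by
  obtain ⟨v, hv, hxv, _⟩ := gfind_mem G m x hx
  have h0 := List.all_eq_true.1 hq.cfv _ hv
  rw [Bool.and_eq_true] at h0
  have h := List.all_eq_true.1 h0.2 x hxv
  unfold entryOK at h
  simp only [Bool.and_eq_true] at h
  obtain ⟨h1, h2, h3, h4, h5⟩ := h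
  rw [Nat.beq_eq] at h2 h3 h4
  obtain ⟨C, hC, hm⟩ := match_exists hc hq.wok h1
  refine ⟨C, hC, hm, cov_pos2 hc hq.wok hC hm h4, h2, ?_, ?_⟩
  · apply traceI_eq hc hq.wok hC hm (n := 40)
    · rw [h3]; exact trE_fst _ _ _ _ _ _ _ _ _
    · intro i hi hb
      have := List.all_eq_true.1 h5 i (List.mem_range.2 hi)
      rw [hb, Bool.false_or, Bool.and_eq_true, Nat.blt_eq] at this
      refine ⟨this.1, fun h => ?_⟩
      have h6 := this.2
      rw [h] at h6
      simp at h6
  · intro e he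
    rw [← fullM_bt, ← h4, bt_or]
    exact Or.inl he

theorem entry_pat {m : ℕ} {x : ℕ × ℕ × List ℕ} (hx : x ∈ G.find m) :
    x ∈ G.find (pat x.1 (wL q) 0) := by
  obtain ⟨C, _, _, _, h, _⟩ := entry_spec hc hq hx
  rw [h]; exact hx

/-- a covering configuration is listed -/
theorem ent_of {C : Finset D} (hC : (hc.patch hq.wok).Inner C) (hcov : (hc.patch hq.wok).CovI C) :
    ∃ x, x ∈ G.find (pat x.1 (wL q) 0) ∧ Match hc C x.1 := by
  obtain ⟨b, hb, hm⟩ := exists_match hc hq.wok hC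
  have h := List.all_eq_true.1 hq.en b hb
  rw [Bool.or_eq_true] at h
  rcases h with h | h
  · rw [List.any_eq_true] at h
    obtain ⟨x, hx, h2⟩ := h
    rw [Nat.beq_eq] at h2
    exact ⟨x, by rw [h2]; exact hx, by rw [h2]; exact hm⟩
  · exfalso
    unfold inCyc at h
    rw [List.any_eq_true] at h
    obtain ⟨i, hi, h⟩ := h
    have hv : (2 * (16 * i), 2 * (16 * i + 1), 2 * (16 * pr q.length i) + 1) ∈ wV q := by
      unfold wV
      rw [List.mem_flatMap]
      exact ⟨i, hi, List.mem_cons_self ..⟩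
    have c1 : 2 * (16 * i) ∈ codes q := mem_codes.2 ⟨_, hv, Or.inl rfl⟩
    have c2 : 2 * (16 * i + 1) ∈ codes q := mem_codes.2 ⟨_, hv, Or.inr (Or.inl rfl)⟩
    have l1 : isLeg (2 * (16 * i)) = false := by
      unfold isLeg
      rw [Bool.eq_false_iff]
      intro h'
      rw [Nat.ble_eq] at h'
      omega
    have l2 : isLeg (2 * (16 * i + 1)) = false := by
      unfold isLeg
      rw [Bool.eq_false_iff]
      intro h'
      rw [Nat.ble_eq] at h'
      omega
    by_cases hbi : bt b (16 * i) = true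
    · simp only [hbi, cond_true] at h
      refine cycB_cov hc hq.wok hC hm c2 ?_ l2 h hcov
      have e1 : 2 * (16 * i + 1) / 2 = 16 * i + 1 := by omega
      have e2 : 2 * (16 * i) / 2 = 16 * i := by omega
      have hvx := hC.v _ ((mem_P hc hq.wok).2 ⟨_, c1, rfl⟩)
      rw [hc.s1 _ hv] at hvx
      have h3 : ι (2 * (16 * i)) ∈ C := (hm _ c1).2 (by rw [e2]; exact hbi)
      rw [Bool.eq_false_iff]
      intro h4
      have h5 : ι (2 * (16 * i + 1)) ∈ C := (hm _ c2).2 h4
      unfold One3 at hvx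
      tauto
    · have hbi' : bt b (16 * i) = false := Bool.eq_false_iff.2 hbi
      simp only [hbi', cond_false] at h
      refine cycB_cov hc hq.wok hC hm c1 ?_ l1 h hcov
      have e2 : 2 * (16 * i) / 2 = 16 * i := by omega
      rw [e2]; exact hbi'

theorem match_inj2 {C : Finset D} {m m' : ℕ} {x y : ℕ × ℕ × List ℕ} (hx : x ∈ G.find m)
    (hy : y ∈ G.find m') (h : Match hc C x.1) (h' : Match hc C y.1) : x.1 = y.1 := by
  obtain ⟨_, _, _, _, _, _, kx⟩ := entry_spec hc hq hx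
  obtain ⟨_, _, _, _, _, _, ky⟩ := entry_spec hc hq hy
  apply bt_ext
  intro e
  constructor
  · intro he
    obtain ⟨c, hcc, rfl⟩ := kx e he
    exact (h' c hcc).1 ((h c hcc).2 he)
  · intro he
    obtain ⟨c, hcc, rfl⟩ := ky e he
    exact (h c hcc).1 ((h' c hcc).2 he)

/-- some leg is used -/
theorem leg_used2 {C : Finset D} (hC : (hc.patch hq.wok).Inner C)
    (hcov : (hc.patch hq.wok).CovI C) : ∃ i, (hc.patch hq.wok).m i ∉ C := by
  have h0 : ι 0 ∈ (hc.patch hq.wok).P := (mem_P hc hq.wok).2 ⟨0, hq.ring.z0, rfl⟩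
  have hv := hC.v _ h0
  obtain ⟨z, hz, hzC⟩ : ∃ z, z ∈ (hc.patch hq.wok).P ∧ z ∉ C := by
    by_cases h : ι 0 ∈ C
    · exact ⟨M.σ (ι 0), (hc.patch hq.wok).σP _ h0, by unfold One3 at hv; tauto⟩
    · exact ⟨_, h0, h⟩
  obtain ⟨i, hi⟩ := hcov z hz hzC
  exact ⟨i, fun h => hzC (by
    have := (hc.patch hq.wok).RI_iso h hi.symm
    rw [this]; exact h)⟩

theorem traceI_invol2 {C : Finset D} (hC : (hc.patch hq.wok).Inner C)
    (i : Fin (wL q).length) :
    (hc.patch hq.wok).traceI C ((hc.patch hq.wok).traceI C i) = i := by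
  set T := hc.patch hq.wok with hT
  set j := T.traceI C i with hj
  by_cases h : j = i
  · rw [h, ← hj, h]
  · have h1 : T.RI C (T.m i) (T.m j) := T.RI_trace i
    have h2 := (T.RI_legs hC h1.symm).resolve_left (fun h' => h h'.symm)
    exact h2.symm

/-- the answer of `single` is correct for the entries -/
theorem single_spec2 {t : Fin (wL q).length → Fin (wL q).length}
    (ht : ∀ i, t (t i) = i) {m : ℕ} {x : ℕ × ℕ × List ℕ} (hx : x ∈ G.find m)
    (hfix : ∀ i : Fin (wL q).length, (dig x.2.1 i = i ↔ t i = i)) {C : Finset D}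
    (hC : (hc.patch hq.wok).Inner C) (hm : Match hc C x.1) {b : Bool}
    (h : single (wL q).length (pack (ext0 t) (wL q).length) x.2.1 = some b) :
    b = true ↔ (hc.patch hq.wok).Compl t C := by
  obtain ⟨C', hC', hm', hcov, _, htr, _⟩ := entry_spec hc hq hx
  have : C = C' := match_unique hc hq.wok hC.sub hC'.sub hm hm'
  subst this
  have hK := hq.wok.K15
  have h16 : ∀ j < (wL q).length, ext0 t j < 16 := fun j hj => by
    have := ext0_lt t hj; omega
  have hf : ∀ i, (hc.patch hq.wok).m i ∈ C ↔ (hc.patch hq.wok).traceI C i = i := by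
    intro i
    rw [(htr i).2, Fin.ext_iff, (htr i).1]
  have hcf : ∀ i, (hc.patch hq.wok).m i ∈ C ↔ t i = i := fun i => (htr i).2.trans (hfix i)
  obtain ⟨i0, hi0⟩ := leg_used2 hc hq hC hcov
  have key := single_iff hK t ((hc.patch hq.wok).traceI C) (pack (ext0 t) (wL q).length) x.2.1
    (fun i => by rw [dig_pack _ _ _ i.2 h16, ext0_val]) (fun i => (htr i).1.symm) ht
    (traceI_invol2 hc hq hC) (fun i => (hcf i).symm.trans (hf i))
    ⟨i0, fun h' => hi0 ((hcf i0).2 h')⟩ b h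
  rw [key]
  constructor
  · intro h'
    exact ⟨hC, hcf, hcov, fun i j hi hj => h' i j (fun k => hi ((hcf i).2 k))
      (fun k => hj ((hcf j).2 k))⟩
  · rintro ⟨_, _, _, h4⟩ i j hi hj
    exact h4 i j (fun k => hi ((hcf i).1 k)) (fun k => hj ((hcf j).1 k))

omit [Fintype D] [DecidableEq D] hc hq in
/-- the pattern of a trace -/
def tpat (q : List ℕ) (t : Fin (wL q).length → Fin (wL q).length) : ℕ :=
  psum (fun j => !Nat.beq (ext0 t j) j) (wL q).length

theorem bt_leg {C : Finset D} {b : ℕ} (hm : Match hc C b) (i : Fin (wL q).length) :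
    bt b ((wL q).getD (i : ℕ) 0 / 2) = true ↔ (hc.patch hq.wok).m i ∈ C := by
  have hget : (wL q).getD (i : ℕ) 0 = (wL q)[i] := by
    rw [List.getD_eq_getElem?_getD, List.getElem?_eq_getElem i.2]; rfl
  rw [hget]
  exact (hm _ (hq.wok.legc _ (List.getElem_mem _))).symm

/-- the pattern of a configuration agrees with the pattern of a trace iff the same legs are
unused -/
theorem tpat_iff {C : Finset D} {b : ℕ} (hm : Match hc C b)
    (t : Fin (wL q).length → Fin (wL q).length) :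
    pat b (wL q) 0 = tpat q t ↔ ∀ i, (hc.patch hq.wok).m i ∈ C ↔ t i = i := by
  rw [pat_eq]
  unfold tpat
  constructor
  · intro h i
    have h1 := psum_inj h i i.2
    simp only [ext0_val] at h1
    have h2 := congrArg (fun b => !b) h1
    simp only [Bool.not_not] at h2
    rw [← bt_leg hc hq hm i, h2, Nat.beq_eq, Fin.ext_iff]
  · intro h
    apply psum_congr
    intro j hj
    have h1 := (bt_leg hc hq hm ⟨j, hj⟩).trans (h ⟨j, hj⟩)
    rw [Fin.ext_iff] at h1
    have h2 : ext0 t j = (t ⟨j, hj⟩ : ℕ) := ext0_val t ⟨j, hj⟩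
    simp only [h2]
    congr 1
    rw [Bool.eq_iff_iff, Nat.beq_eq]
    exact h1

/-- the three cases of the leaf check -/
theorem leaf_cases {t : Fin (wL q).length → Fin (wL q).length} (ht : CubicMap.Patch.NCt t) :
    (∃ x ∈ G.find (tpat q t), ∃ y ∈ G.find (tpat q t), x.1 ≠ y.1 ∧
      single (wL q).length (pack (ext0 t) (wL q).length) x.2.1 = some true ∧
      single (wL q).length (pack (ext0 t) (wL q).length) y.2.1 = some true) ∨
    ((∀ x ∈ G.find (tpat q t),
      single (wL q).length (pack (ext0 t) (wL q).length) x.2.1 = some false) ∧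
      syn c (pack (ext0 t) (wL q).length) (wL q).length = 0) ∨
    ∃ x ∈ G.find (tpat q t),
      single (wL q).length (pack (ext0 t) (wL q).length) x.2.1 = some true ∧
      syn c (pack (ext0 t) (wL q).length) (wL q).length ∈ x.2.2 ∧
      ∀ y ∈ G.find (tpat q t), y.1 ≠ x.1 →
        single (wL q).length (pack (ext0 t) (wL q).length) y.2.1 = some false := by
  apply leaf2_none
  · rcases hg : G.find (tpat q t) with _ | ⟨x, l⟩
    · simp
    · have hx : x ∈ G.find (tpat q t) := by rw [hg]; exact List.mem_cons_self ..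
      obtain ⟨v, hv, _, hf⟩ := gfind_mem G _ x hx
      have h0 := List.all_eq_true.1 hq.cfv _ hv
      rw [Bool.and_eq_true] at h0
      have := incr2_nodup v h0.1
      rw [← hf, hg] at this
      exact this
  · refine dfs2_sound c (wL q).length G (ext0 t) hq.wok.K15 (fun i hi => ext0_lt t hi) ?_ ?_
      hq.dfs
    · intro i hi
      have h1 : ext0 t i = (t ⟨i, hi⟩ : ℕ) := ext0_val t ⟨i, hi⟩
      rw [h1, ext0_val, ht.1]
    · intro a ha i hi h1 h2
      have e1 : ext0 t a = (t ⟨a, ha⟩ : ℕ) := ext0_val t ⟨a, ha⟩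
      have e2 : ext0 t i = (t ⟨i, hi⟩ : ℕ) := ext0_val t ⟨i, hi⟩
      rw [e1] at h2 ⊢
      rw [e2]
      exact ht.2 ⟨a, ha⟩ ⟨i, hi⟩ h1 h2

/-- an entry with the pattern of `t` which completes `t` -/
theorem entry_compl {t : Fin (wL q).length → Fin (wL q).length} (ht : ∀ i, t (t i) = i)
    {x : ℕ × ℕ × List ℕ} (hx : x ∈ G.find (tpat q t)) {b : Bool}
    (h : single (wL q).length (pack (ext0 t) (wL q).length) x.2.1 = some b) :
    ∃ C, (hc.patch hq.wok).Inner C ∧ Match hc C x.1 ∧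
      (b = true ↔ (hc.patch hq.wok).Compl t C) := by
  obtain ⟨C, hC, hm, hcov, hpat, htr, _⟩ := entry_spec hc hq hx
  have h1 := (tpat_iff hc hq hm t).1 hpat
  exact ⟨C, hC, hm, single_spec2 hc hq ht hx (fun i => (htr i).2.symm.trans (h1 i)) hC hm h⟩

theorem compl_entry {t : Fin (wL q).length → Fin (wL q).length} {C : Finset D}
    (hC : (hc.patch hq.wok).Compl t C) : ∃ x ∈ G.find (tpat q t), Match hc C x.1 := by
  obtain ⟨x, hx, hm⟩ := ent_of hc hq hC.1 hC.2.2.1
  rw [(tpat_iff hc hq hm t).2 hC.2.1] at hx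
  exact ⟨x, hx, hm⟩

theorem hM_cert2 {t : Fin (wL q).length → Fin (wL q).length} (ht : CubicMap.Patch.NCt t) :
    (∀ n, ∑ x, bz (c.find (pack (extO (opn t x)) (wL q).length)) n = 0) ∨
      ∃ C, (hc.patch hq.wok).Compl t C := by
  rcases leaf_cases hc hq ht with ⟨x, hx, _, _, _, h, _⟩ | ⟨_, h⟩ | ⟨x, hx, h, _⟩
  · right
    obtain ⟨C, _, _, h'⟩ := entry_compl hc hq ht.1 hx h
    exact ⟨C, h'.1 rfl⟩
  · left
    intro n
    rw [← bz_syn' hq.wok.K15 c t ht.1 n, h, bz_zero]
  · right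
    obtain ⟨C, _, _, h'⟩ := entry_compl hc hq ht.1 hx h
    exact ⟨C, h'.1 rfl⟩

/-- unique completion: the value is in the table -/
theorem uniq_cert2 {t : Fin (wL q).length → Fin (wL q).length} (ht : CubicMap.Patch.NCt t)
    {C : Finset D} (hC : (hc.patch hq.wok).Compl t C)
    (hu : ∀ C', (hc.patch hq.wok).Compl t C' → C' = C) :
    ∃ x, x ∈ G.find (pat x.1 (wL q) 0) ∧ Match hc C x.1 ∧
      syn c (pack (ext0 t) (wL q).length) (wL q).length ∈ x.2.2 := by
  rcases leaf_cases hc hq ht with ⟨x, hx, y, hy, hxy, h1, h2⟩ | ⟨h, _⟩ | ⟨x, hx, h1, h2, _⟩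
  · exfalso
    obtain ⟨C1, _, m1, h1'⟩ := entry_compl hc hq ht.1 hx h1
    obtain ⟨C2, _, m2, h2'⟩ := entry_compl hc hq ht.1 hy h2
    rw [hu _ (h1'.1 rfl)] at m1
    rw [hu _ (h2'.1 rfl)] at m2
    exact hxy (match_inj2 hc hq hx hy m1 m2)
  · exfalso
    obtain ⟨y, hy, hm⟩ := compl_entry hc hq hC
    obtain ⟨C', hC', m', h'⟩ := entry_compl hc hq ht.1 hy (h y hy)
    have : C = C' := match_unique hc hq.wok hC.1.sub hC'.sub hm m'
    rw [← this] at h'
    exact Bool.noConfusion (h'.2 hC)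
  · obtain ⟨C1, _, m1, h1'⟩ := entry_compl hc hq ht.1 hx h1
    rw [hu _ (h1'.1 rfl)] at m1
    exact ⟨x, entry_pat hc hq hx, m1, h2⟩

/-- the triple check -/
theorem trip2_spec {A B C : ℕ × ℕ × List ℕ} (hA : A ∈ G.find (pat A.1 (wL q) 0))
    (hB : B ∈ G.find (pat B.1 (wL q) 0)) (hC : C ∈ G.find (pat C.1 (wL q) 0))
    (hone : ∀ c ∈ codes q, One3 (bt A.1 (c / 2) = true) (bt B.1 (c / 2) = true)
      (bt C.1 (c / 2) = true)) (h0 : bt A.1 0 = true) (h1 : bt B.1 (nx (TB q) 0 / 2) = true)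
    {u v w : ℕ} (hu : u ∈ A.2.2) (hv : v ∈ B.2.2) (hw : w ∈ C.2.2) : u ^^^ v ^^^ w ≠ 0 := by
  obtain ⟨_, _, _, _, _, _, kA⟩ := entry_spec hc hq hA
  obtain ⟨_, _, _, _, _, _, kB⟩ := entry_spec hc hq hB
  obtain ⟨_, _, _, _, _, _, kC⟩ := entry_spec hc hq hC
  have hand : A.1 &&& B.1 = 0 := by
    apply Nat.eq_of_testBit_eq
    intro e
    rw [Nat.testBit_and, Nat.zero_testBit]
    by_contra hcon
    rw [Bool.not_eq_false, Bool.and_eq_true, ← bt_iff, ← bt_iff] at hcon
    obtain ⟨c, hcc, rfl⟩ := kA e hcon.1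
    have := hone c hcc
    unfold One3 at this
    tauto
  have hx3' : fullM q ^^^ (A.1 ^^^ B.1) = C.1 := by
    apply bt_ext
    intro e
    rw [bt_xor, bt_xor]
    by_cases he : ∃ c ∈ codes q, e = c / 2
    · have hf := (fullM_bt q e).2 he
      obtain ⟨c, hcc, rfl⟩ := he
      have := hone c hcc
      rw [hf]
      unfold One3 at this
      rcases this with ⟨a1, a2, a3⟩ | ⟨a1, a2, a3⟩ | ⟨a1, a2, a3⟩
      · rw [a1, Bool.eq_false_iff.2 a2, Bool.eq_false_iff.2 a3]; decide
      · rw [Bool.eq_false_iff.2 a1, a2, Bool.eq_false_iff.2 a3]; decide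
      · rw [Bool.eq_false_iff.2 a1, Bool.eq_false_iff.2 a2, a3]; decide
    · have hf : bt (fullM q) e = false := by
        rw [Bool.eq_false_iff]; intro h; exact he ((fullM_bt q e).1 h)
      have h1 : bt A.1 e = false := by
        rw [Bool.eq_false_iff]; intro h; exact he (kA e h)
      have h2 : bt B.1 e = false := by
        rw [Bool.eq_false_iff]; intro h; exact he (kB e h)
      have h3 : bt C.1 e = false := by
        rw [Bool.eq_false_iff]; intro h; exact he (kC e h)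
      rw [hf, h1, h2, h3]; decide
  have ht := hq.trp
  unfold trip2 at ht
  have t1 := List.all_eq_true.1 (List.all_eq_true.1 ht A
    (List.mem_filter.2 ⟨gfind_ents hA, h0⟩)) B (List.mem_filter.2 ⟨gfind_ents hB, h1⟩)
  have hbb : ∀ z : ℕ, Nat.beq z z = true := fun z => Nat.beq_refl z
  rw [hand] at t1
  simp only [hbb, cond_true, hx3'] at t1
  have t2 := List.all_eq_true.1 t1 C hC
  simp only [hbb, cond_true] at t2
  have t3 := List.all_eq_true.1 (List.all_eq_true.1 (List.all_eq_true.1 t2 w hw) u hu) v hv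
  intro h
  rw [Nat.xor_eq_zero_iff] at h
  rw [h] at t3
  simp at t3

/-- **Main certificate theorem** (second checker). -/
theorem cert2_no_three (hY : ∃ y, y ∉ (hc.patch hq.wok).P)
    (hB : ∀ h : D → ZMod 2, (∀ d, h (M.α d) = h d) →
      (∀ d, h d + h (M.σ d) + h (M.σ (M.σ d)) = 0) →
      ∃ g : D → ZMod 2, (∀ d, g (M.σ (M.α d)) = g d) ∧ ∀ d, h d = g d + g (M.α d)) :
    ¬ M.Three := by
  have hS : (hc.patch hq.wok).Sided := fun a b hab e e1 e2 e3 e4 =>
    side hc hq.wok hq.ring hB hab e e1 e2 e3 e4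
  have h0P : ι 0 ∈ (hc.patch hq.wok).P := (mem_P hc hq.wok).2 ⟨0, hq.ring.z0, rfl⟩
  refine (hc.patch hq.wok).no_three hY ⟨_, h0P⟩ CubicMap.Patch.NCt CubicMap.Patch.NCtri
    (fun E hE => CubicMap.Patch.nct hS hE) (fun W u i j k ht => CubicMap.Patch.nctri hS ht)
    (fun n o => bz (c.find (pack (extO o) (wL q).length)) n) ?_ ?_ ?_
  · rintro n t i j k ⟨h1, h2, h3, h4, h5, h6, h7, h8⟩
    have := coc_sound hq.wok.K15 c hq.coc t h1 i j k h2 h3 h4 h5 h6 h7 h8
    rw [← bz_xor, ← bz_xor, Nat.xor_assoc, this, bz_zero]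
  · intro t ht
    exact hM_cert2 hc hq ht
  · intro C1 C2 C3 t1 t2 t3 n1 n2 n3 c1 c2 c3 hpart u1 u2 u3
    obtain ⟨x1, hx1, m1, s1⟩ := uniq_cert2 hc hq n1 c1 u1
    obtain ⟨x2, hx2, m2, s2⟩ := uniq_cert2 hc hq n2 c2 u2
    obtain ⟨x3, hx3, m3, s3⟩ := uniq_cert2 hc hq n3 c3 u3
    set v1 := syn c (pack (ext0 t1) (wL q).length) (wL q).length with hv1
    set v2 := syn c (pack (ext0 t2) (wL q).length) (wL q).length with hv2
    set v3 := syn c (pack (ext0 t3) (wL q).length) (wL q).length with hv3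
    have hone : ∀ c ∈ codes q, One3 (bt x1.1 (c / 2) = true) (bt x2.1 (c / 2) = true)
        (bt x3.1 (c / 2) = true) := by
      intro c hcc
      rw [← One3.congr (m1 c hcc) (m2 c hcc) (m3 c hcc)]
      exact hpart _ ((mem_P hc hq.wok).2 ⟨c, hcc, rfl⟩)
    obtain ⟨w1, w2⟩ := nx_spec hc hq.wok hq.ring.z0
    -- no configuration contains both first edges
    have hex : ∀ (C : Finset D) (b : ℕ), (hc.patch hq.wok).Inner C → Match hc C b →
        bt b 0 = true → bt b (nx (TB q) 0 / 2) = true → False := by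
      intro C b hC hm k0 k1
      have hv := hC.v _ h0P
      have a1 : ι 0 ∈ C := (hm 0 hq.ring.z0).2 k0
      have a2 : ι (nx (TB q) 0) ∈ C := (hm _ w2).2 k1
      rw [w1] at hv
      unfold One3 at hv
      tauto
    have o0 := hone 0 hq.ring.z0
    have o1 := hone _ w2
    rw [Nat.zero_div] at o0
    have rot : ∀ {p q r : Prop}, One3 p q r → One3 q r p := by
      intro p q r h; unfold One3 at h ⊢; tauto
    have swp : ∀ {p q r : Prop}, One3 p q r → One3 q p r := by
      intro p q r h; unfold One3 at h ⊢; tauto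
    have hx : v1 ^^^ v2 ^^^ v3 ≠ 0 := by
      have e12 := hex C1 x1.1 c1.1 m1
      have e22 := hex C2 x2.1 c2.1 m2
      have e32 := hex C3 x3.1 c3.1 m3
      have p0 : bt x1.1 0 = true ∨ bt x2.1 0 = true ∨ bt x3.1 0 = true := by
        unfold One3 at o0; tauto
      have p1 : bt x1.1 (nx (TB q) 0 / 2) = true ∨ bt x2.1 (nx (TB q) 0 / 2) = true ∨
          bt x3.1 (nx (TB q) 0 / 2) = true := by
        unfold One3 at o1; tauto
      rcases p0 with p0 | p0 | p0 <;> rcases p1 with p1 | p1 | p1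
      · exact (e12 p0 p1).elim
      · exact trip2_spec hc hq hx1 hx2 hx3 hone p0 p1 s1 s2 s3
      · have := trip2_spec hc hq hx1 hx3 hx2 (fun c hcc => swp (rot (rot (hone c hcc))))
          p0 p1 s1 s3 s2
        rwa [Nat.xor_assoc, Nat.xor_comm v3 v2, ← Nat.xor_assoc] at this
      · have := trip2_spec hc hq hx2 hx1 hx3 (fun c hcc => swp (hone c hcc)) p0 p1 s2 s1 s3
        rwa [Nat.xor_comm v2 v1] at this
      · exact (e22 p0 p1).elim
      · have := trip2_spec hc hq hx2 hx3 hx1 (fun c hcc => rot (hone c hcc)) p0 p1 s2 s3 s1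
        rwa [Nat.xor_comm, ← Nat.xor_assoc] at this
      · have := trip2_spec hc hq hx3 hx1 hx2 (fun c hcc => rot (rot (hone c hcc))) p0 p1 s3 s1 s2
        rwa [Nat.xor_assoc, Nat.xor_comm] at this
      · have := trip2_spec hc hq hx3 hx2 hx1 (fun c hcc => swp (rot (hone c hcc))) p0 p1 s3 s2 s1
        rwa [Nat.xor_comm v3 v2, Nat.xor_comm, ← Nat.xor_assoc] at this
      · exact (e32 p0 p1).elim
    obtain ⟨n, hn⟩ := bz_ne hx
    refine ⟨n, ?_⟩
    rw [bz_xor, bz_xor, hv1, hv2, hv3, bz_syn' hq.wok.K15 c t1 n1.1, bz_syn' hq.wok.K15 c t2 n2.1,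
      bz_syn' hq.wok.K15 c t3 n3.1] at hn
    exact hn

end
end Pool.H64.NC
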