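import Pool.Agent.Helper64.NC.Assemble

/-! NC: a faster certificate checker (definitions). -/

namespace Pool.H64.NC.Code

/-- apply `f` to the evaluated number `x` (for speed only, see `force_eq`) -/
def force {α : Type} (f : ℕ → α) (x : ℕ) : α := Nat.casesOn x (f 0) (fun n => f (n + 1))

theorem force_eq {α : Type} (f : ℕ → α) (x : ℕ) : force f x = f x := by
  cases x <;> rfl

/-- the value of the functional on the type `opn t x`, as `cval` -/
def cval2 (c : Tree) (t x : ℕ) : ℕ :=
  let y := dig t x
  bif Nat.beq y x then force c.find (t + ((15 - x) <<< (4 * x)))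
  else force c.find (t + ((15 - y) <<< (4 * x)) + (y <<< (4 * y)) - (x <<< (4 * y)))

def syn2 (c : Tree) (t : ℕ) : ℕ → ℕ
  | 0 => 0
  | n + 1 => syn2 c t n ^^^ cval2 c t n

theorem syn2_eq (c : Tree) (t n : ℕ) : syn2 c t n = syn c t n := by
  induction n with
  | zero => rfl
  | succ n ih =>
    unfold syn2 syn
    rw [ih]
    unfold cval2 cval
    simp only [force_eq]

/-- tree of groups of configurations: key = pattern of the used legs, entries
`(mask of the unused edges, trace, allowed values)` -/
inductive GTree
  | leaf : GTree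
  | node : GTree → ℕ → List (ℕ × ℕ × List ℕ) → GTree → GTree

def GTree.find : GTree → ℕ → List (ℕ × ℕ × List ℕ)
  | .leaf, _ => []
  | .node l k v r, x => bif Nat.beq x k then v else bif Nat.blt x k then l.find x else r.find x

def GTree.toL : GTree → List (ℕ × List (ℕ × ℕ × List ℕ))
  | .leaf => []
  | .node l k v r => l.toL ++ (k, v) :: r.toL

/-- pattern of the used legs -/
def pat (b : ℕ) : List ℕ → ℕ → ℕ
  | [], _ => 0
  | y :: l, i => bif bt b (y / 2) then pat b l (i + 1) else (1 <<< i) + pat b l (i + 1)

/-- is the path of the used dart `y` closed (`y0` the start)? -/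
def cycB (T b : ℕ) : ℕ → ℕ → ℕ → Bool
  | 0, _, _ => false
  | n + 1, y0, y =>
    let z := other T b y
    bif isLeg z then false
    else
      let y' := z ^^^ 1
      bif Nat.beq y' y0 then true else cycB T b n y0 y'

/-- there is a closed circuit through a vertex of the hub -/
def inCyc (T b : ℕ) (p : ℕ) : Bool :=
  (List.range p).any (fun i =>
    let y := bif bt b (16 * i) then 2 * (16 * i + 1) else 2 * (16 * i)
    cycB T b 40 y y)

/-- follow the path starting at the used dart `y`; returns the last leg and the visited edges -/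
def walkE (T b : ℕ) : ℕ → ℕ → ℕ → ℕ × ℕ
  | 0, y, W => (y, W)
  | n + 1, y, W =>
    let z := other T b y
    let W' := W ||| (1 <<< (y / 2)) ||| (1 <<< (z / 2))
    bif isLeg z then (z, W') else walkE T b n (z ^^^ 1) W'

/-- trace and visited edges -/
def trE (T b n : ℕ) (L : List ℕ) : List ℕ → ℕ → ℕ → ℕ → ℕ × ℕ
  | [], _, t, W => (t, W)
  | y :: l, i, t, W =>
    bif bt b (y / 2) then trE T b n L l (i + 1) (t + (i <<< (4 * i))) W
    else
      let r := walkE T b n y W
      trE T b n L l (i + 1) (t + (pos L r.1 <<< (4 * i))) r.2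

/-- the check for one trace `t` -/
def leaf2 (c : Tree) (K t : ℕ) : List (ℕ × ℕ × List ℕ) → Option (List ℕ) → Bool
  | [], none => Nat.beq (syn2 c t K) 0
  | [], some S => S.any (fun v => Nat.beq v (syn2 c t K))
  | x :: l, o =>
    match single K t x.2.1 with
    | none => false
    | some false => leaf2 c K t l o
    | some true =>
      match o with
      | none => leaf2 c K t l (some x.2.2)
      | some _ => true

/-- run over all noncrossing traces; `m`: pattern of the nonfixed legs `< i` -/
def dfs2 (c : Tree) (K : ℕ) (G : GTree) : ℕ → ℕ → ℕ → ℕ → Bool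
  | 0, _, t, m => leaf2 c K t (G.find m) none
  | n + 1, i, t, m =>
    let a := clm t i i
    bif Nat.beq a 0 then
      force (fun t => dfs2 c K G n (i + 1) t m) (t + (i <<< (4 * i))) &&
        (List.range (lim K t i i - (i + 1))).all (fun k =>
          force (fun t => dfs2 c K G n (i + 1) t (m + (1 <<< i))) (t + ((i + 1 + k) <<< (4 * i))))
    else force (fun t => dfs2 c K G n (i + 1) t (m + (1 <<< i))) (t + ((a - 1) <<< (4 * i)))

end Pool.H64.NC.Code

namespace Pool.H64.NC

open Code

/-- every configuration is listed or has a closed circuit -/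
def enOK2 (q : List ℕ) (G : GTree) : Bool :=
  (enumC (wV q) 0 0).all (fun b =>
    (G.find (pat b (wL q) 0)).any (fun x => Nat.beq x.1 b) || inCyc (TB q) b q.length)

/-- a correct entry with pattern `m` -/
def entryOK (q : List ℕ) (m : ℕ) (x : ℕ × ℕ × List ℕ) : Bool :=
  let r := trE (TB q) x.1 40 (wL q) (wL q) 0 0 0
  validB q x.1 && (Nat.beq (pat x.1 (wL q) 0) m && (Nat.beq x.2.1 r.1 &&
    (Nat.beq (x.1 ||| r.2) (fullM q) && (List.range (wL q).length).all (fun i =>
      bt x.1 ((wL q).getD i 0 / 2) || (Nat.blt (dig x.2.1 i) (wL q).length &&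
        !Nat.beq (dig x.2.1 i) i)))))

/-- strictly increasing masks -/
def incr2 : List (ℕ × ℕ × List ℕ) → Bool
  | [] => true
  | [_] => true
  | x :: y :: l => Nat.blt x.1 y.1 && incr2 (y :: l)

def cfOK2 (q : List ℕ) (G : GTree) : Bool :=
  G.toL.all (fun g => incr2 g.2 && g.2.all (entryOK q g.1))

/-- all entries -/
def Code.GTree.ents (G : GTree) : List (ℕ × ℕ × List ℕ) := G.toL.flatMap (fun g => g.2)

def trip2 (q : List ℕ) (G : GTree) : Bool :=
  (G.ents.filter (fun A => bt A.1 0)).all (fun A =>
    (G.ents.filter (fun B => bt B.1 (nx (TB q) 0 / 2))).all (fun B =>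
      bif Nat.beq (A.1 &&& B.1) 0 then
        let b := fullM q ^^^ (A.1 ^^^ B.1)
        (G.find (pat b (wL q) 0)).all (fun C =>
          bif Nat.beq C.1 b then
            C.2.2.all (fun w => A.2.2.all (fun u => B.2.2.all (fun v => !(Nat.beq (u ^^^ v) w))))
          else true)
      else true))

/-- a checked certificate -/
structure Cert2 (q : List ℕ) (c : Tree) (G : GTree) : Prop where
  wok : WOK q
  ring : Ring q
  en : enOK2 q G = true
  cfv : cfOK2 q G = true
  dfs : dfs2 c (wL q).length G (wL q).length 0 0 0 = true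
  coc : c.keys.all (fun κ => cocK c (wL q).length κ) = true
  trp : trip2 q G = true

end Pool.H64.NC
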