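import Pool.Agent.Helper64.NC.Ck.Code2

/-! NC: soundness of the parts of the faster checker. -/

set_option linter.unusedSectionVars false

namespace Pool.H64.NC

open Function Code

/-! ### trees -/

theorem gfind_mem : ∀ (G : GTree) (m : ℕ) (x : ℕ × ℕ × List ℕ), x ∈ G.find m →
    ∃ v, (m, v) ∈ G.toL ∧ x ∈ v ∧ G.find m = v
  | .leaf, m, x, h => by simp [GTree.find] at h
  | .node l k v r, m, x, h => by
    unfold GTree.find at h
    unfold GTree.toL
    by_cases h1 : Nat.beq m k = true
    · rw [h1, cond_true] at h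
      rw [Nat.beq_eq] at h1
      subst h1
      refine ⟨v, List.mem_append_right _ (List.mem_cons_self ..), h, ?_⟩
      unfold GTree.find
      simp
    · rw [Bool.eq_false_iff.2 h1, cond_false] at h
      by_cases h2 : Nat.blt m k = true
      · rw [h2, cond_true] at h
        obtain ⟨v', a1, a2, a3⟩ := gfind_mem l m x h
        refine ⟨v', List.mem_append_left _ a1, a2, ?_⟩
        unfold GTree.find
        rw [Bool.eq_false_iff.2 h1, cond_false, h2, cond_true, a3]
      · rw [Bool.eq_false_iff.2 h2, cond_false] at h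
        obtain ⟨v', a1, a2, a3⟩ := gfind_mem r m x h
        refine ⟨v', List.mem_append_right _ (List.mem_cons_of_mem _ a1), a2, ?_⟩
        unfold GTree.find
        rw [Bool.eq_false_iff.2 h1, cond_false, Bool.eq_false_iff.2 h2, cond_false, a3]

theorem gfind_ents {G : GTree} {m : ℕ} {x : ℕ × ℕ × List ℕ} (h : x ∈ G.find m) :
    x ∈ G.ents := by
  obtain ⟨v, h1, h2, _⟩ := gfind_mem G m x h
  exact List.mem_flatMap.2 ⟨_, h1, h2⟩

theorem incr2_nodup : ∀ (l : List (ℕ × ℕ × List ℕ)), incr2 l = true →
    (l.map Prod.fst).Pairwise (· < ·)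
  | [], _ => by simp
  | [x], _ => by simp
  | x :: y :: l, h => by
    unfold incr2 at h
    rw [Bool.and_eq_true, Nat.blt_eq] at h
    have ih := incr2_nodup (y :: l) h.2
    rw [List.map_cons, List.pairwise_cons]
    refine ⟨?_, ih⟩
    intro z hz
    rw [List.map_cons] at ih hz
    rw [List.pairwise_cons] at ih
    rw [List.mem_cons] at hz
    rcases hz with rfl | hz
    · exact h.1
    · exact h.1.trans (ih.1 z hz)

/-! ### the pattern of used legs -/

/-- sum of `2 ^ j` over the `j < n` with `P j` -/
def psum (P : ℕ → Bool) : ℕ → ℕ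
  | 0 => 0
  | n + 1 => psum P n + (if P n then 1 <<< n else 0)

theorem psum_lt (P : ℕ → Bool) (n : ℕ) : psum P n < 2 ^ n := by
  induction n with
  | zero => simp [psum]
  | succ n ih =>
    unfold psum
    rw [Nat.one_shiftLeft, pow_succ]
    split_ifs <;> omega

theorem psum_testBit (P : ℕ → Bool) (n j : ℕ) :
    (psum P n).testBit j = (decide (j < n) && P j) := by
  induction n with
  | zero => simp [psum]
  | succ n ih =>
    unfold psum
    rw [Nat.one_shiftLeft]
    have hlt := psum_lt P n
    rcases Nat.lt_trichotomy j n with h | h | h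
    · split_ifs with hP
      · have h2 := Nat.testBit_two_pow_add_gt h (psum P n)
        rw [add_comm, h2, ih]
        simp [h, h.trans (Nat.lt_succ_self n)]
      · rw [add_zero, ih]
        simp [h, h.trans (Nat.lt_succ_self n)]
    · subst h
      split_ifs with hP
      · rw [add_comm, Nat.testBit_two_pow_add_eq, Nat.testBit_lt_two_pow hlt]
        simp [hP]
      · rw [add_zero, Nat.testBit_lt_two_pow hlt]
        simp [hP]
    · have h2 : psum P n + (if P n = true then 2 ^ n else 0) < 2 ^ (n + 1) := by
        rw [pow_succ]; split_ifs <;> omega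
      have h3 : psum P n + (if P n = true then 2 ^ n else 0) < 2 ^ j :=
        h2.trans_le (Nat.pow_le_pow_right (by norm_num) h)
      rw [Nat.testBit_lt_two_pow h3]
      simp only [Bool.false_eq, Bool.and_eq_false_imp, decide_eq_true_eq]
      intro h4; omega

theorem pat_psum (b : ℕ) : ∀ (l pre : List ℕ),
    psum (fun j => !bt b ((pre ++ l).getD j 0 / 2)) pre.length + pat b l pre.length =
      psum (fun j => !bt b ((pre ++ l).getD j 0 / 2)) (pre ++ l).length
  | [], pre => by simp [pat]
  | y :: l, pre => by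
    have h := pat_psum b l (pre ++ [y])
    have e1 : (pre ++ [y]) ++ l = pre ++ y :: l := by simp
    have e2 : (pre ++ [y]).length = pre.length + 1 := by simp
    rw [e1, e2] at h
    rw [← h]
    have e3 : (pre ++ y :: l).getD pre.length 0 = y := by
      rw [List.getD_eq_getElem?_getD, List.getElem?_append_right (le_refl _)]
      simp
    have e4 : pat b (y :: l) pre.length = bif bt b (y / 2) then pat b l (pre.length + 1)
      else (1 <<< pre.length) + pat b l (pre.length + 1) := rfl
    have e5 : psum (fun j => !bt b ((pre ++ y :: l).getD j 0 / 2)) (pre.length + 1) =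
      psum (fun j => !bt b ((pre ++ y :: l).getD j 0 / 2)) pre.length +
        (if (!bt b ((pre ++ y :: l).getD pre.length 0 / 2)) = true then 1 <<< pre.length else 0) :=
      rfl
    rw [e4, e5, e3]
    generalize psum (fun j => !bt b ((pre ++ y :: l).getD j 0 / 2)) pre.length = A
    cases bt b (y / 2) <;> simp [add_assoc]

theorem pat_eq (b : ℕ) (L : List ℕ) :
    pat b L 0 = psum (fun j => !bt b (L.getD j 0 / 2)) L.length := by
  have := pat_psum b L []
  simpa [psum] using this

/-! ### the search -/

theorem dfs2_step (c : Tree) (K : ℕ) (G : GTree) (f : ℕ → ℕ)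
    (hK : K ≤ 15) (h1 : ∀ i < K, f i < K) (h2 : ∀ i < K, f (f i) = i)
    (h3 : ∀ a < K, ∀ i < K, a < i → i < f a → f i < f a) (n : ℕ) :
    ∀ i, n + i = K → dfs2 c K G n i (pack f i) (psum (fun j => !Nat.beq (f j) j) i) = true →
    leaf2 c K (pack f K) (G.find (psum (fun j => !Nat.beq (f j) j) K)) none = true := by
  induction n with
  | zero =>
    intro i hi h
    rw [zero_add] at hi
    subst hi
    exact h
  | succ n ih =>
    intro i hi h
    have hiK : i < K := by omega
    refine ih (i + 1) (by omega) ?_
    have hd : ∀ a < i, dig (pack f i) a = f a := fun a ha =>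
      dig_pack f i a ha fun j hj => by have := h1 j (by omega); omega
    rw [pack, psum]
    rw [dfs2] at h
    simp only [force_eq] at h
    by_cases hc : clm (pack f i) i i = 0
    · have hb : Nat.beq (clm (pack f i) i i) 0 = true := by rw [hc]; rfl
      simp only [hb, cond_true, Bool.and_eq_true] at h
      have hge : i ≤ f i := by
        by_contra hlt
        rw [not_le] at hlt
        refine dfs_clm_zero _ _ _ hc (f i) hlt ?_
        rw [hd _ hlt]
        exact h2 i hiK
      rcases Nat.eq_or_lt_of_le hge with he | hl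
      · have e1 : (!Nat.beq (f i) i) = false := by rw [← he]; simp
        rw [e1, if_neg (by simp), add_zero, ← he]
        exact h.1
      · have e1 : (!Nat.beq (f i) i) = true := by
          rw [Bool.not_eq_true', Bool.eq_false_iff]
          intro h'
          rw [Nat.beq_eq] at h'
          omega
        rw [e1, if_pos rfl]
        have hlim : f i < lim K (pack f i) i i := by
          refine dfs_lim _ _ _ _ _ (h1 i hiK) fun a ha hia => ?_
          rw [hd a ha] at hia ⊢
          exact h3 a (by omega) i hiK ha hia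
        have h4 := List.all_eq_true.mp h.2 (f i - (i + 1)) (List.mem_range.mpr (by omega))
        rw [show i + 1 + (f i - (i + 1)) = f i by omega] at h4
        exact h4
    · have hb : Nat.beq (clm (pack f i) i i) 0 = false := by
        rw [Bool.eq_false_iff]
        intro h5
        exact hc (Nat.eq_of_beq_eq_true h5)
      simp only [hb, cond_false] at h
      obtain ⟨h5, h6⟩ := dfs_clm_ne _ _ _ hc
      rw [hd _ h5] at h6
      have h7 : clm (pack f i) i i - 1 = f i := by
        rw [← h6, h2 _ (by omega), h6]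
      rw [h7] at h h5
      have e1 : (!Nat.beq (f i) i) = true := by
        rw [Bool.not_eq_true', Bool.eq_false_iff]
        intro h'
        rw [Nat.beq_eq] at h'
        omega
      rw [e1, if_pos rfl]
      exact h

theorem dfs2_sound (c : Tree) (K : ℕ) (G : GTree) (f : ℕ → ℕ)
    (hK : K ≤ 15) (h1 : ∀ i < K, f i < K) (h2 : ∀ i < K, f (f i) = i)
    (h3 : ∀ a < K, ∀ i < K, a < i → i < f a → f i < f a)
    (h : dfs2 c K G K 0 0 0 = true) :
    leaf2 c K (pack f K) (G.find (psum (fun j => !Nat.beq (f j) j) K)) none = true :=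
  dfs2_step c K G f hK h1 h2 h3 K 0 (by omega) h

/-- meaning of the leaf check: either two different entries complete, or the list of completing
entries is known -/
theorem leaf2_some (c : Tree) (K t : ℕ) (S : List ℕ) : ∀ (l : List (ℕ × ℕ × List ℕ)),
    leaf2 c K t l (some S) = true →
    (∃ x ∈ l, single K t x.2.1 = some true) ∨
      ((∀ x ∈ l, single K t x.2.1 = some false) ∧ syn c t K ∈ S)
  | [], h => by
    right
    unfold leaf2 at h
    rw [List.any_eq_true] at h
    obtain ⟨v, hv, hv'⟩ := h
    rw [Nat.beq_eq, syn2_eq] at hv'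
    exact ⟨by simp, hv' ▸ hv⟩
  | x :: l, h => by
    unfold leaf2 at h
    rcases hs : single K t x.2.1 with _ | _ | _
    · rw [hs] at h; simp at h
    · rw [hs] at h
      simp only at h
      rcases leaf2_some c K t S l h with ⟨y, hy, h'⟩ | ⟨h1, h2⟩
      · exact Or.inl ⟨y, List.mem_cons_of_mem _ hy, h'⟩
      · right
        refine ⟨?_, h2⟩
        intro y hy
        rw [List.mem_cons] at hy
        rcases hy with rfl | hy
        · exact hs
        · exact h1 y hy
    · exact Or.inl ⟨x, List.mem_cons_self .., hs⟩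

theorem leaf2_none (c : Tree) (K t : ℕ) : ∀ (l : List (ℕ × ℕ × List ℕ)),
    (l.map Prod.fst).Pairwise (· < ·) → leaf2 c K t l none = true →
    (∃ x ∈ l, ∃ y ∈ l, x.1 ≠ y.1 ∧ single K t x.2.1 = some true ∧
      single K t y.2.1 = some true) ∨
    ((∀ x ∈ l, single K t x.2.1 = some false) ∧ syn c t K = 0) ∨
    ∃ x ∈ l, single K t x.2.1 = some true ∧ syn c t K ∈ x.2.2 ∧
      ∀ y ∈ l, y.1 ≠ x.1 → single K t y.2.1 = some false
  | [], _, h => by
    right; left
    unfold leaf2 at h
    rw [Nat.beq_eq, syn2_eq] at h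
    exact ⟨by simp, h⟩
  | x :: l, hp, h => by
    rw [List.map_cons, List.pairwise_cons] at hp
    have hne : ∀ y ∈ l, x.1 ≠ y.1 := fun y hy => ne_of_lt (hp.1 _ (List.mem_map_of_mem hy))
    unfold leaf2 at h
    rcases hs : single K t x.2.1 with _ | _ | _
    · rw [hs] at h; simp at h
    · rw [hs] at h
      simp only at h
      rcases leaf2_none c K t l hp.2 h with ⟨y, hy, z, hz, h'⟩ | ⟨h1, h2⟩ | ⟨y, hy, h1, h2, h3⟩
      · exact Or.inl ⟨y, List.mem_cons_of_mem _ hy, z, List.mem_cons_of_mem _ hz, h'⟩
      · right; left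
        refine ⟨?_, h2⟩
        intro y hy
        rw [List.mem_cons] at hy
        rcases hy with rfl | hy
        · exact hs
        · exact h1 y hy
      · right; right
        refine ⟨y, List.mem_cons_of_mem _ hy, h1, h2, ?_⟩
        intro z hz hzy
        rw [List.mem_cons] at hz
        rcases hz with rfl | hz
        · exact hs
        · exact h3 z hz hzy
    · rw [hs] at h
      simp only at h
      rcases leaf2_some c K t x.2.2 l h with ⟨y, hy, h'⟩ | ⟨h1, h2⟩
      · left
        exact ⟨x, List.mem_cons_self .., y, List.mem_cons_of_mem _ hy, hne y hy, hs, h'⟩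
      · right; right
        refine ⟨x, List.mem_cons_self .., hs, h2, ?_⟩
        intro z hz hzx
        rw [List.mem_cons] at hz
        rcases hz with rfl | hz
        · exact absurd rfl hzx
        · exact h1 z hz

/-! ### traces and visited edges -/

theorem walkE_fst (T b : ℕ) : ∀ (n y W W' : ℕ), (walkE T b n y W).1 = (walk T b n y W').1
  | 0, y, W, W' => rfl
  | n + 1, y, W, W' => by
    unfold walkE walk
    by_cases h : isLeg (other T b y) = true
    · simp only [h, cond_true]
    · simp only [Bool.eq_false_iff.2 h, cond_false]; exact walkE_fst T b n _ _ _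

theorem trE_fst (T b n : ℕ) (L : List ℕ) : ∀ (l : List ℕ) (i t W W' : ℕ),
    (trE T b n L l i t W).1 = (trc T b n L l i t W').1
  | [], i, t, W, W' => rfl
  | y :: l, i, t, W, W' => by
    unfold trE trc
    by_cases h : bt b (y / 2) = true
    · simp only [h, cond_true]; exact trE_fst T b n L l _ _ _ _
    · simp only [Bool.eq_false_iff.2 h, cond_false]
      rw [walkE_fst T b n y W W']
      exact trE_fst T b n L l _ _ _ _

section
variable {D : Type*} [DecidableEq D] {M : CubicMap D} {q : List ℕ} {ι : ℕ → D}
variable (hc : Coded M q ι) (hq : WOK q)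
variable {C : Finset D} {b : ℕ} (hC : (hc.patch hq).Inner C) (hm : Match hc C b)
include hc hq hC hm

theorem walkE_spec : ∀ (n y W : ℕ), y ∈ codes q → bt b (y / 2) = false →
    ∀ e, bt (walkE (TB q) b n y W).2 e = true → bt W e = true ∨
      ∃ x ∈ codes q, x / 2 = e ∧ bt b (x / 2) = false ∧ (hc.patch hq).RI C (ι y) (ι x)
  | 0, y, W, hy, hb => fun e he => Or.inl he
  | n + 1, y, W, hy, hb => by
    obtain ⟨z1, z2, z3⟩ := other_spec hc hq hC hm hy hb
    have hyz : (hc.patch hq).RI C (ι y) (ι (other (TB q) b y)) := by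
      rw [← z3]; exact Conn.ms _
    have hW : ∀ e, bt (W ||| (1 <<< (y / 2)) ||| (1 <<< (other (TB q) b y / 2))) e = true →
        bt W e = true ∨
        ∃ x ∈ codes q, x / 2 = e ∧ bt b (x / 2) = false ∧ (hc.patch hq).RI C (ι y) (ι x) := by
      intro e he
      rw [bt_or, bt_or, bt_one, bt_one] at he
      rcases he with (h | h) | h
      · exact Or.inl h
      · exact Or.inr ⟨y, hy, h.symm, hb, Conn.refl _⟩
      · exact Or.inr ⟨_, z1, h.symm, z2, hyz⟩
    unfold walkE
    by_cases hl : isLeg (other (TB q) b y) = true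
    · simp only [hl, cond_true]
      exact hW
    · have hl' : isLeg (other (TB q) b y) = false := Bool.eq_false_iff.2 hl
      simp only [hl', cond_false]
      obtain ⟨w1, w2, w3⟩ := edge_spec hc hq hC hm z1 z2 hl'
      have hzw : (hc.patch hq).RI C (ι y) (ι (other (TB q) b y ^^^ 1)) := by
        rw [← w3]; exact hyz.trans (Conn.ma _)
      intro e he
      rcases walkE_spec n (other (TB q) b y ^^^ 1)
        (W ||| (1 <<< (y / 2)) ||| (1 <<< (other (TB q) b y / 2))) w1 w2 e he with h | h
      · exact hW e h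
      · obtain ⟨x, h1, h2, h3, h4⟩ := h
        exact Or.inr ⟨x, h1, h2, h3, hzw.trans h4⟩

theorem trE_spec (n : ℕ) : ∀ (l pre : List ℕ) (t W : ℕ), wL q = pre ++ l →
    ∀ e, bt (trE (TB q) b n (wL q) l pre.length t W).2 e = true → bt W e = true ∨
      ∃ x ∈ codes q, x / 2 = e ∧ bt b (x / 2) = false ∧
        ∃ i : Fin (wL q).length, (hc.patch hq).RI C (ι x) ((hc.patch hq).m i)
  | [], pre, t, W, h1 => fun e he => Or.inl he
  | y :: l, pre, t, W, h1 => by
    have hlen : (pre ++ [y]).length = pre.length + 1 := by simp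
    have hi : pre.length < (wL q).length := by rw [h1]; simp
    have hyL : y ∈ wL q := by rw [h1]; simp
    have hyc := hq.legc y hyL
    have hmi : (hc.patch hq).m ⟨pre.length, hi⟩ = ι y := by
      rw [m_eq]
      have : (wL q)[pre.length] = y := by
        simp [h1]
      exact congrArg ι this
    have h1' : wL q = (pre ++ [y]) ++ l := by rw [h1]; simp
    unfold trE
    intro e
    by_cases hb : bt b (y / 2) = true
    · simp only [hb, cond_true]
      have := trE_spec n l (pre ++ [y]) (t + (pre.length <<< (4 * pre.length))) W h1' e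
      rw [hlen] at this
      exact this
    · have hb' : bt b (y / 2) = false := Bool.eq_false_iff.2 hb
      simp only [hb', cond_false]
      have := trE_spec n l (pre ++ [y])
        (t + (pos (wL q) (walkE (TB q) b n y W).1 <<< (4 * pre.length)))
        (walkE (TB q) b n y W).2 h1' e
      rw [hlen] at this
      intro he
      rcases this he with h | h
      · rcases walkE_spec hc hq hC hm n y W hyc hb' e h with h | ⟨x, a1, a2, a3, a4⟩
        · exact Or.inl h
        · exact Or.inr ⟨x, a1, a2, a3, ⟨pre.length, hi⟩, by rw [hmi]; exact a4.symm⟩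
      · exact Or.inr h

/-- all used edges visited: covering -/
theorem cov_pos2 {n : ℕ}
    (h : b ||| (trE (TB q) b n (wL q) (wL q) 0 0 0).2 = fullM q) : (hc.patch hq).CovI C := by
  intro x hx hxC
  obtain ⟨c, hcc, rfl⟩ := (mem_P hc hq).1 hx
  have hcb : bt b (c / 2) = false := by
    rw [Bool.eq_false_iff]; intro h'; exact hxC ((hm c hcc).2 h')
  have h1 : bt (fullM q) (c / 2) = true := (fullM_bt q _).2 ⟨c, hcc, rfl⟩
  rw [← h, bt_or] at h1
  have h2 := h1.resolve_left (fun h' => by rw [hcb] at h'; exact Bool.noConfusion h')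
  rcases trE_spec hc hq hC hm n (wL q) [] 0 0 rfl (c / 2) h2 with h3 | ⟨c', a1, a2, a3, i, a4⟩
  · unfold bt at h3; simp at h3
  · refine ⟨i, ?_⟩
    rcases hq.half c' a1 c hcc a2 with h4 | ⟨h4, h5⟩
    · rw [← h4]; exact a4
    · obtain ⟨_, _, w3⟩ := edge_spec hc hq hC hm a1 a3 h5
      rw [h4, ← w3]
      exact (Conn.ma _).symm.trans a4

/-- a closed circuit -/
theorem cycB_spec : ∀ (n y0 y : ℕ), y ∈ codes q → bt b (y / 2) = false → isLeg y = false →
    cycB (TB q) b n y0 y = true →
    ∃ (S : Set D) (l : D), l ∈ S ∧ (hc.patch hq).aeI C l = ι y0 ∧ ι y ∈ S ∧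
      (∀ x ∈ S, (hc.patch hq).swI C x ∈ S) ∧
      (∀ x ∈ S, x = ι y ∨ x = l ∨ (hc.patch hq).aeI C x ∈ S) ∧
      ∀ x ∈ S, ∃ c ∈ codes q, x = ι c ∧ isLeg c = false
  | 0, y0, y, _, _, _, h => by simp [cycB] at h
  | n + 1, y0, y, hy, hb, hl, h => by
    obtain ⟨z1, z2, z3⟩ := other_spec hc hq hC hm hy hb
    unfold cycB at h
    by_cases hlz : isLeg (other (TB q) b y) = true
    · simp only [hlz, cond_true] at h; exact Bool.noConfusion h
    · have hlz' : isLeg (other (TB q) b y) = false := Bool.eq_false_iff.2 hlz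
      simp only [hlz', cond_false] at h
      obtain ⟨w1, w2, w3⟩ := edge_spec hc hq hC hm z1 z2 hlz'
      have z4 : (hc.patch hq).swI C (ι (other (TB q) b y)) = ι y := by
        rw [← z3, (hc.patch hq).swI_inv C]
      by_cases he : Nat.beq (other (TB q) b y ^^^ 1) y0 = true
      · rw [Nat.beq_eq] at he
        refine ⟨{ι y, ι (other (TB q) b y)}, ι (other (TB q) b y), Or.inr rfl, ?_, Or.inl rfl,
          ?_, ?_, ?_⟩
        · rw [w3, he]
        · rintro x (rfl | rfl)
          · rw [z3]; exact Or.inr rfl
          · rw [z4]; exact Or.inl rfl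
        · rintro x (rfl | rfl)
          · exact Or.inl rfl
          · exact Or.inr (Or.inl rfl)
        · rintro x (rfl | rfl)
          · exact ⟨y, hy, rfl, hl⟩
          · exact ⟨_, z1, rfl, hlz'⟩
      · rw [Bool.eq_false_iff.2 he, cond_false] at h
        obtain ⟨S, l, s1, s2, s3, s4, s5, s6⟩ := cycB_spec n y0 _ w1 w2 (hq.xr _ z1 hlz').2 h
        refine ⟨insert (ι y) (insert (ι (other (TB q) b y)) S), l, Or.inr (Or.inr s1), s2,
          Or.inl rfl, ?_, ?_, ?_⟩
        · rintro x (rfl | rfl | hx)
          · rw [z3]; exact Or.inr (Or.inl rfl)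
          · rw [z4]; exact Or.inl rfl
          · exact Or.inr (Or.inr (s4 x hx))
        · rintro x (rfl | rfl | hx)
          · exact Or.inl rfl
          · right; right
            rw [w3]
            exact Or.inr (Or.inr s3)
          · rcases s5 x hx with h' | h' | h'
            · right; right
              rw [h', ← w3, (hc.patch hq).aeI_inv C]
              exact Or.inr (Or.inl rfl)
            · exact Or.inr (Or.inl h')
            · exact Or.inr (Or.inr (Or.inr (Or.inr h')))
        · rintro x (rfl | rfl | hx)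
          · exact ⟨y, hy, rfl, hl⟩
          · exact ⟨_, z1, rfl, hlz'⟩
          · exact s6 x hx

theorem cycB_cov {n y : ℕ} (hy : y ∈ codes q) (hb : bt b (y / 2) = false)
    (hl : isLeg y = false) (h : cycB (TB q) b n y y = true) : ¬ (hc.patch hq).CovI C := by
  intro hcov
  obtain ⟨S, l, s1, s2, s3, s4, s5, s6⟩ := cycB_spec hc hq hC hm n y y hy hb hl h
  have hyC : ι y ∉ C := fun h => by rw [(hm y hy).1 h] at hb; exact Bool.noConfusion hb
  obtain ⟨i, hi⟩ := hcov _ ((mem_P hc hq).2 ⟨y, hy, rfl⟩) hyC
  have h7 : (hc.patch hq).m i ∈ S := by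
    refine CubicMap.Patch.inv_of ((hc.patch hq).swI_inv C) ((hc.patch hq).aeI_inv C)
      (fun x => x ∈ S) s4 ?_ hi s3
    intro x hx
    rcases s5 x hx with h' | h' | h'
    · rw [h', ← s2, (hc.patch hq).aeI_inv C]; exact s1
    · rw [h', s2]; exact s3
    · exact h'
  obtain ⟨c, h8, h9, h10⟩ := s6 _ h7
  have h11 : (hc.patch hq).X (ι c) := by rw [← h9]; exact (hc.patch hq).X_of_leg i
  rw [X_code hc hq h8, h10] at h11
  exact Bool.noConfusion h11

end

end Pool.H64.NC
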